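import Mathlib

/-!
# MP_895317_an: the spectrum of a hypercyclic Toeplitz operator with symbol `γ/z + φ(z)` meets the
open unit disc
-/

set_option autoImplicit false
set_option linter.unusedSectionVars false

namespace Pool.Agent.Results.MP_895317_an.SpectrumMeetsDisc

open scoped InnerProductSpace ComplexConjugate

/-- A bounded operator is hypercyclic if it has a dense orbit. -/
def Hypercyclic {H : Type*} [NormedAddCommGroup H] [NormedSpace ℂ H] (T : H →L[ℂ] H) : Prop :=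
  ∃ x : H, Dense (Set.range fun n : ℕ => (T ^ n) x)

section Abstract

variable {H : Type*} [NormedAddCommGroup H] [InnerProductSpace ℂ H] [CompleteSpace H]
  (S T : H →L[ℂ] H) (e₀ : H) (γ : ℂ)

/-- `(1 - z S*)⁻¹`. -/
noncomputable def N (z : ℂ) : H →L[ℂ] H := Ring.inverse (1 - z • ContinuousLinearMap.adjoint S)

variable {S T e₀ γ}

lemma norm_adj_le (hiso : ∀ x, ‖S x‖ = ‖x‖) : ‖ContinuousLinearMap.adjoint S‖ ≤ 1 := by
  have : ‖ContinuousLinearMap.adjoint S‖ = ‖S‖ := LinearIsometryEquiv.norm_map _ _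
  rw [this]
  exact S.opNorm_le_bound zero_le_one (fun x => by rw [hiso, one_mul])

lemma adj_S (hiso : ∀ x, ‖S x‖ = ‖x‖) (x : H) : ContinuousLinearMap.adjoint S (S x) = x := by
  have h : ∀ x y, ⟪S x, S y⟫_ℂ = ⟪x, y⟫_ℂ := by
    let L : H →ₗᵢ[ℂ] H := ⟨S.toLinearMap, hiso⟩
    intro x y
    exact L.inner_map_map x y
  refine ext_inner_left ℂ (fun y => ?_)
  rw [ContinuousLinearMap.adjoint_inner_right, h]

lemma adj_e (h0 : ∀ x, ⟪e₀, S x⟫_ℂ = 0) : ContinuousLinearMap.adjoint S e₀ = 0 := by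
  refine ext_inner_right ℂ (fun y => ?_)
  rw [ContinuousLinearMap.adjoint_inner_left, h0, inner_zero_left]

lemma decomp (hiso : ∀ x, ‖S x‖ = ‖x‖) (he : ‖e₀‖ = 1) (h0 : ∀ x, ⟪e₀, S x⟫_ℂ = 0)
    (hr : ∀ x, ⟪e₀, x⟫_ℂ = 0 → ∃ y, S y = x) (x : H) :
    x = ⟪e₀, x⟫_ℂ • e₀ + S (ContinuousLinearMap.adjoint S x) := by
  have hee : ⟪e₀, e₀⟫_ℂ = 1 := by rw [inner_self_eq_norm_sq_to_K, he]; simp
  obtain ⟨y, hy⟩ := hr (x - ⟪e₀, x⟫_ℂ • e₀) (by
    rw [inner_sub_right, inner_smul_right, hee, mul_one, sub_self])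
  have h1 : ContinuousLinearMap.adjoint S x = y := by
    have h2 : ContinuousLinearMap.adjoint S (x - ⟪e₀, x⟫_ℂ • e₀) = y := by
      rw [← hy, adj_S hiso]
    rw [map_sub, map_smul, adj_e h0, smul_zero, sub_zero] at h2
    exact h2
  rw [h1, hy]
  abel

lemma isUnit_N (hiso : ∀ x, ‖S x‖ = ‖x‖) {z : ℂ} (hz : ‖z‖ < 1) :
    IsUnit (1 - z • ContinuousLinearMap.adjoint S) := by
  apply isUnit_one_sub_of_norm_lt_one
  rw [norm_smul]
  calc ‖z‖ * ‖ContinuousLinearMap.adjoint S‖ ≤ ‖z‖ * 1 :=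
        mul_le_mul_of_nonneg_left (norm_adj_le hiso) (norm_nonneg _)
    _ < 1 := by rw [mul_one]; exact hz

lemma N_left (hiso : ∀ x, ‖S x‖ = ‖x‖) {z : ℂ} (hz : ‖z‖ < 1) (x : H) :
    N S z (x - z • ContinuousLinearMap.adjoint S x) = x := by
  have := Ring.inverse_mul_cancel _ (isUnit_N hiso hz)
  have h := congrArg (fun A : H →L[ℂ] H => A x) this
  exact h

lemma N_right (hiso : ∀ x, ‖S x‖ = ‖x‖) {z : ℂ} (hz : ‖z‖ < 1) (x : H) :
    N S z x - z • ContinuousLinearMap.adjoint S (N S z x) = x := by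
  have := Ring.mul_inverse_cancel _ (isUnit_N hiso hz)
  have h := congrArg (fun A : H →L[ℂ] H => A x) this
  exact h

lemma N_S (hiso : ∀ x, ‖S x‖ = ‖x‖) {z : ℂ} (hz : ‖z‖ < 1) (x : H) :
    N S z (S x) = S x + z • N S z x := by
  have h := N_left hiso hz (S x + z • N S z x)
  rw [map_add, adj_S hiso, map_smul, smul_add, smul_smul] at h
  have h2 : S x + z • N S z x - (z • x + (z * z) • ContinuousLinearMap.adjoint S (N S z x))
      = S x := by
    have h3 := N_right hiso hz x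
    have h4 : z • x = z • N S z x - (z * z) • ContinuousLinearMap.adjoint S (N S z x) := by
      rw [← smul_smul, ← smul_sub, h3]
    rw [h4]
    abel
  rw [h2] at h
  exact h

lemma N_e (hiso : ∀ x, ‖S x‖ = ‖x‖) (h0 : ∀ x, ⟪e₀, S x⟫_ℂ = 0) {z : ℂ} (hz : ‖z‖ < 1) :
    N S z e₀ = e₀ := by
  have h := N_left hiso hz e₀
  rw [adj_e h0, smul_zero, sub_zero] at h
  exact h

/-- A bounded functional with `l ∘ S = z l` is a multiple of the evaluation at `z`. -/
lemma functional (hiso : ∀ x, ‖S x‖ = ‖x‖) (he : ‖e₀‖ = 1) (h0 : ∀ x, ⟪e₀, S x⟫_ℂ = 0)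
    (hr : ∀ x, ⟪e₀, x⟫_ℂ = 0 → ∃ y, S y = x) {z : ℂ} (hz : ‖z‖ < 1) (l : H →L[ℂ] ℂ)
    (hl : ∀ x, l (S x) = z * l x) (x : H) : l x = l e₀ * ⟪e₀, N S z x⟫_ℂ := by
  have hee : ⟪e₀, e₀⟫_ℂ = 1 := by rw [inner_self_eq_norm_sq_to_K, he]; simp
  let m : H →L[ℂ] ℂ := l - l e₀ • ((innerSL ℂ e₀).comp (N S z))
  have hm : ∀ x, m x = l x - l e₀ * ⟪e₀, N S z x⟫_ℂ := fun x => rfl
  have hme : m e₀ = 0 := by rw [hm, N_e hiso h0 hz, hee]; ring
  have hmS : ∀ x, m (S x) = z * m x := by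
    intro x
    rw [hm, hm, hl, N_S hiso hz, inner_add_right, h0, inner_smul_right]
    ring
  have hmx : ∀ x, m x = z * m (ContinuousLinearMap.adjoint S x) := by
    intro x
    conv_lhs => rw [decomp hiso he h0 hr x]
    rw [map_add, map_smul, hme, hmS, smul_zero, zero_add]
  have hb : ‖m‖ ≤ ‖z‖ * ‖m‖ := by
    apply m.opNorm_le_bound (by positivity)
    intro x
    rw [hmx x, norm_mul, mul_assoc]
    apply mul_le_mul_of_nonneg_left _ (norm_nonneg _)
    calc ‖m (ContinuousLinearMap.adjoint S x)‖ ≤ ‖m‖ * ‖ContinuousLinearMap.adjoint S x‖ :=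
          m.le_opNorm _
      _ ≤ ‖m‖ * ‖x‖ := by
          apply mul_le_mul_of_nonneg_left _ (norm_nonneg _)
          calc ‖ContinuousLinearMap.adjoint S x‖ ≤ ‖ContinuousLinearMap.adjoint S‖ * ‖x‖ :=
                ContinuousLinearMap.le_opNorm _ _
            _ ≤ 1 * ‖x‖ := mul_le_mul_of_nonneg_right (norm_adj_le hiso) (norm_nonneg _)
            _ = ‖x‖ := one_mul _
  have hm0 : ‖m‖ = 0 := by
    have := norm_nonneg m
    nlinarith
  have : m = 0 := norm_eq_zero.1 hm0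
  have h := hm x
  have h' : m x = 0 := by rw [this]; rfl
  rw [h'] at h
  exact (sub_eq_zero.1 h.symm)

/-- The Herglotz function of `|v|²`. -/
noncomputable def G (S : H →L[ℂ] H) (v : H) (z : ℂ) : ℂ :=
  ⟪v, N S z v + z • ContinuousLinearMap.adjoint S (N S z v)⟫_ℂ

lemma norm_adj (hiso : ∀ x, ‖S x‖ = ‖x‖) (he : ‖e₀‖ = 1) (h0 : ∀ x, ⟪e₀, S x⟫_ℂ = 0)
    (hr : ∀ x, ⟪e₀, x⟫_ℂ = 0 → ∃ y, S y = x) (x : H) :
    ‖ContinuousLinearMap.adjoint S x‖ ^ 2 = ‖x‖ ^ 2 - ‖⟪e₀, x⟫_ℂ‖ ^ 2 := by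
  have h1 := decomp hiso he h0 hr x
  have h2 : ‖x‖ * ‖x‖ = ‖⟪e₀, x⟫_ℂ • e₀‖ * ‖⟪e₀, x⟫_ℂ • e₀‖
      + ‖S (ContinuousLinearMap.adjoint S x)‖ * ‖S (ContinuousLinearMap.adjoint S x)‖ := by
    conv_lhs => rw [h1]
    apply norm_add_sq_eq_norm_sq_add_norm_sq_of_inner_eq_zero (𝕜 := ℂ)
    rw [inner_smul_left, h0, mul_zero]
  rw [hiso, norm_smul, he, mul_one] at h2
  nlinarith

lemma G_bound (hiso : ∀ x, ‖S x‖ = ‖x‖) (he : ‖e₀‖ = 1) (h0 : ∀ x, ⟪e₀, S x⟫_ℂ = 0)
    (hr : ∀ x, ⟪e₀, x⟫_ℂ = 0 → ∃ y, S y = x) {z : ℂ} (hz : ‖z‖ < 1) (v : H) :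
    ‖⟪e₀, N S z v⟫_ℂ‖ ^ 2 ≤ (G S v z).re := by
  set u := N S z v with hu
  set a := z • ContinuousLinearMap.adjoint S u with ha
  have hv : v = u - a := (N_right hiso hz v).symm
  have h1 : (G S v z).re = ‖u‖ ^ 2 - ‖a‖ ^ 2 := by
    unfold G
    rw [← hu, ← ha]
    conv_lhs => rw [hv]
    rw [inner_sub_left, inner_add_right, inner_add_right, Complex.sub_re, Complex.add_re,
      Complex.add_re]
    have h2 : (⟪u, u⟫_ℂ).re = ‖u‖ ^ 2 := by
      rw [inner_self_eq_norm_sq_to_K]; norm_cast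
    have h3 : (⟪a, a⟫_ℂ).re = ‖a‖ ^ 2 := by
      rw [inner_self_eq_norm_sq_to_K]; norm_cast
    have h4 : (⟪u, a⟫_ℂ).re = (⟪a, u⟫_ℂ).re := by
      rw [← inner_conj_symm u a, Complex.conj_re]
    rw [h2, h3, h4]; ring
  rw [h1, ha, norm_smul, mul_pow, norm_adj hiso he h0 hr]
  have h5 : ‖⟪e₀, u⟫_ℂ‖ ≤ ‖u‖ := by
    calc ‖⟪e₀, u⟫_ℂ‖ ≤ ‖e₀‖ * ‖u‖ := norm_inner_le_norm _ _
      _ = ‖u‖ := by rw [he, one_mul]
  have h6 : ‖⟪e₀, u⟫_ℂ‖ ^ 2 ≤ ‖u‖ ^ 2 := by
    apply pow_le_pow_left₀ (norm_nonneg _) h5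
  have h7 : ‖z‖ ^ 2 ≤ 1 := by
    have := norm_nonneg z
    nlinarith
  nlinarith

/-- The functionals attached to the resolvent. -/
noncomputable def F (T : H →L[ℂ] H) (e₀ : H) (γ : ℂ) (v : H) (w : ℂ) : ℂ :=
  γ * ⟪e₀, resolvent T w v⟫_ℂ

lemma res_right {w : ℂ} (hw : w ∈ resolventSet ℂ T) (x : H) :
    w • resolvent T w x - T (resolvent T w x) = x := by
  have h : (algebraMap ℂ (H →L[ℂ] H) w - T) * resolvent T w = 1 := Ring.mul_inverse_cancel _ hw
  have h2 := congrArg (fun A : H →L[ℂ] H => A x) h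
  exact h2

lemma res_left {w : ℂ} (hw : w ∈ resolventSet ℂ T) (x : H) :
    resolvent T w (w • x - T x) = x := by
  have h : resolvent T w * (algebraMap ℂ (H →L[ℂ] H) w - T) = 1 := Ring.inverse_mul_cancel _ hw
  have h2 := congrArg (fun A : H →L[ℂ] H => A x) h
  exact h2

/-- `ζ(w)`. -/
lemma F_S (h0 : ∀ x, ⟪e₀, S x⟫_ℂ = 0) (hT : ∀ x, T (S x) = S (T x) + (γ * ⟪e₀, x⟫_ℂ) • e₀)
    {w : ℂ} (hw : w ∈ resolventSet ℂ T) (v : H) :
    F T e₀ γ (S v) w = F T e₀ γ e₀ w * F T e₀ γ v w := by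
  set u := resolvent T w v with hu
  have h1 : w • S u - T (S u) = S v - (γ * ⟪e₀, u⟫_ℂ) • e₀ := by
    rw [hT]
    have : S v = w • S u - S (T u) := by
      rw [← map_smul, ← map_sub, res_right hw]
    rw [this]
    abel
  have h2 : S u = resolvent T w (S v) - (γ * ⟪e₀, u⟫_ℂ) • resolvent T w e₀ := by
    rw [← map_smul, ← map_sub, ← h1, res_left hw]
  have h3 : (0 : ℂ) = ⟪e₀, resolvent T w (S v)⟫_ℂ
      - (γ * ⟪e₀, u⟫_ℂ) * ⟪e₀, resolvent T w e₀⟫_ℂ := by
    rw [← inner_smul_right, ← inner_sub_right, ← h2, h0]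
  unfold F
  rw [← hu]
  linear_combination -γ * h3

lemma F_iter (h0 : ∀ x, ⟪e₀, S x⟫_ℂ = 0) (hT : ∀ x, T (S x) = S (T x) + (γ * ⟪e₀, x⟫_ℂ) • e₀)
    {w : ℂ} (hw : w ∈ resolventSet ℂ T) (n : ℕ) :
    F T e₀ γ ((S ^ n) e₀) w = F T e₀ γ e₀ w ^ (n + 1) := by
  induction n with
  | zero => simp
  | succ n ih =>
    have : (S ^ (n + 1)) e₀ = S ((S ^ n) e₀) := by rw [pow_succ']; rfl
    rw [this, F_S h0 hT hw, ih]
    ring

lemma norm_zeta (hiso : ∀ x, ‖S x‖ = ‖x‖) (he : ‖e₀‖ = 1) (h0 : ∀ x, ⟪e₀, S x⟫_ℂ = 0)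
    (hT : ∀ x, T (S x) = S (T x) + (γ * ⟪e₀, x⟫_ℂ) • e₀)
    {w : ℂ} (hw : w ∈ resolventSet ℂ T) : ‖F T e₀ γ e₀ w‖ < 1 := by
  have hadj := fun x => adj_S hiso x
  have hinner : ∀ x y, ⟪S x, S y⟫_ℂ = ⟪x, y⟫_ℂ := by
    intro x y
    rw [← ContinuousLinearMap.adjoint_inner_right, hadj]
  have hpow : ∀ n : ℕ, ∀ x, (S ^ (n + 1)) x = S ((S ^ n) x) := by
    intro n x; rw [pow_succ']; rfl
  have horth : Orthonormal ℂ (fun n : ℕ => (S ^ n) e₀) := by
    rw [orthonormal_iff_ite]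
    intro i j
    induction i generalizing j with
    | zero =>
      cases j with
      | zero => simp [inner_self_eq_norm_sq_to_K, he]
      | succ j =>
        rw [hpow, if_neg (by omega)]
        simpa using h0 _
    | succ i ih =>
      cases j with
      | zero =>
        rw [hpow, if_neg (by omega)]
        rw [← inner_conj_symm]
        simp [h0]
      | succ j =>
        rw [hpow, hpow, hinner, ih j]
        simp
  -- the Riesz representative
  let l : H →L[ℂ] ℂ := γ • ((innerSL ℂ e₀).comp (resolvent T w))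
  have hl : ∀ x, l x = F T e₀ γ x w := fun x => rfl
  set y := (InnerProductSpace.toDual ℂ H).symm l with hy
  have hyl : ∀ x, ⟪y, x⟫_ℂ = l x := fun x => InnerProductSpace.toDual_symm_apply
  have hsum := horth.inner_products_summable (x := y)
  have htend := hsum.tendsto_atTop_zero
  by_contra hcon
  push Not at hcon
  have hlow : ∀ n : ℕ, 1 ≤ ‖⟪(S ^ n) e₀, y⟫_ℂ‖ ^ 2 := by
    intro n
    have : ‖⟪(S ^ n) e₀, y⟫_ℂ‖ = ‖F T e₀ γ e₀ w‖ ^ (n + 1) := by
      rw [← inner_conj_symm, RCLike.norm_conj, hyl, hl, F_iter h0 hT hw, norm_pow]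
    rw [this]
    exact one_le_pow₀ (one_le_pow₀ hcon)
  have := ge_of_tendsto' htend hlow
  norm_num at this

lemma F_eval (hiso : ∀ x, ‖S x‖ = ‖x‖) (he : ‖e₀‖ = 1) (h0 : ∀ x, ⟪e₀, S x⟫_ℂ = 0)
    (hr : ∀ x, ⟪e₀, x⟫_ℂ = 0 → ∃ y, S y = x)
    (hT : ∀ x, T (S x) = S (T x) + (γ * ⟪e₀, x⟫_ℂ) • e₀)
    {w : ℂ} (hw : w ∈ resolventSet ℂ T) (v : H) :
    F T e₀ γ v w = F T e₀ γ e₀ w * ⟪e₀, N S (F T e₀ γ e₀ w) v⟫_ℂ := by
  let l : H →L[ℂ] ℂ := γ • ((innerSL ℂ e₀).comp (resolvent T w))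
  have hl : ∀ x, l x = F T e₀ γ x w := fun x => rfl
  have := functional hiso he h0 hr (norm_zeta hiso he h0 hT hw) l
    (fun x => by rw [hl, hl, F_S h0 hT hw]) v
  rw [hl, hl] at this
  exact this

lemma F_bound (hiso : ∀ x, ‖S x‖ = ‖x‖) (he : ‖e₀‖ = 1) (h0 : ∀ x, ⟪e₀, S x⟫_ℂ = 0)
    (hr : ∀ x, ⟪e₀, x⟫_ℂ = 0 → ∃ y, S y = x)
    (hT : ∀ x, T (S x) = S (T x) + (γ * ⟪e₀, x⟫_ℂ) • e₀)
    {w : ℂ} (hw : w ∈ resolventSet ℂ T) (v : H) :
    ‖F T e₀ γ v w‖ ^ 2 ≤ (G S v (F T e₀ γ e₀ w)).re := by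
  have hz := norm_zeta hiso he h0 hT hw
  refine le_trans ?_ (G_bound hiso he h0 hr hz v)
  rw [F_eval hiso he h0 hr hT hw, norm_mul]
  apply pow_le_pow_left₀ (by positivity)
  exact mul_le_of_le_one_left (norm_nonneg _) hz.le

/-! ### Analyticity and averages -/

lemma F_differentiableAt {w : ℂ} (hw : w ∈ resolventSet ℂ T) (v : H) :
    DifferentiableAt ℂ (F T e₀ γ v) w := by
  have h1 : DifferentiableAt ℂ (resolvent T) w :=
    (spectrum.hasDerivAt_resolvent_const_left hw).differentiableAt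
  have h2 : DifferentiableAt ℂ (fun w => resolvent T w v) w :=
    h1.clm_apply (differentiableAt_const v)
  have h3 : DifferentiableAt ℂ (fun w => innerSL ℂ e₀ (resolvent T w v)) w :=
    (innerSL ℂ e₀).differentiableAt.comp w h2
  exact h3.const_mul γ

lemma N_differentiableAt (hiso : ∀ x, ‖S x‖ = ‖x‖) {z : ℂ} (hz : ‖z‖ < 1) :
    DifferentiableAt ℂ (N S) z := by
  have h1 : DifferentiableAt ℂ (fun z : ℂ => 1 - z • ContinuousLinearMap.adjoint S) z :=
    (differentiableAt_const _).sub (differentiableAt_id.smul_const _)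
  have h2 : DifferentiableAt ℂ (Ring.inverse : (H →L[ℂ] H) → (H →L[ℂ] H))
      (1 - z • ContinuousLinearMap.adjoint S) := differentiableAt_inverse (isUnit_N hiso hz)
  exact h2.comp z h1

lemma G_differentiableAt (hiso : ∀ x, ‖S x‖ = ‖x‖) {z : ℂ} (hz : ‖z‖ < 1) (v : H) :
    DifferentiableAt ℂ (G S v) z := by
  have h1 : DifferentiableAt ℂ (fun z => N S z v) z :=
    (N_differentiableAt hiso hz).clm_apply (differentiableAt_const v)
  have h2 : DifferentiableAt ℂ (fun z => z • ContinuousLinearMap.adjoint S (N S z v)) z :=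
    differentiableAt_id.smul
      ((ContinuousLinearMap.adjoint S).differentiableAt.comp z h1)
  exact (innerSL ℂ v).differentiableAt.comp z (h1.add h2)

lemma norm_circleAverage_le' (f : ℂ → ℂ) (r : ℝ) :
    ‖Real.circleAverage f 0 r‖ ≤ Real.circleAverage (fun w => ‖f w‖) 0 r := by
  unfold Real.circleAverage
  rw [norm_smul, smul_eq_mul, Real.norm_of_nonneg (by positivity)]
  apply mul_le_mul_of_nonneg_left _ (by positivity)
  exact intervalIntegral.norm_integral_le_integral_norm (by positivity)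

lemma F_resolvent (h0r : (0 : ℂ) ∈ resolventSet ℂ T) {w : ℂ} (hw : w ∈ resolventSet ℂ T) (v : H) :
    F T e₀ γ v w = F T e₀ γ v 0 - w * F T e₀ γ (resolvent T (0 : ℂ) v) w := by
  have h1 : resolvent T w v = resolvent T (0 : ℂ) v - w • resolvent T w (resolvent T (0 : ℂ) v) := by
    have h2 := res_left hw (resolvent T (0 : ℂ) v)
    have h3 := res_right h0r v
    rw [zero_smul, zero_sub] at h3
    rw [map_sub, map_smul] at h2
    have h4 : resolvent T w (T (resolvent T (0 : ℂ) v)) = - resolvent T w v := by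
      rw [← neg_eq_iff_eq_neg, ← map_neg, h3]
    rw [h4, sub_neg_eq_add] at h2
    rw [eq_sub_iff_add_eq, add_comm]
    exact h2
  unfold F
  rw [h1, inner_sub_right, inner_smul_right]
  ring

lemma avg_conj_pow (r : ℝ) (n : ℕ) :
    Real.circleAverage (fun w : ℂ => (conj w) ^ (n + 1)) 0 r = 0 := by
  have h1 : DiffContOnCl ℂ (fun w : ℂ => w ^ (n + 1)) (Metric.ball 0 |r|) :=
    (differentiable_id.pow _).diffContOnCl
  have h2 := h1.circleAverage
  have h3 := (Complex.conjCLE : ℂ →L[ℝ] ℂ).circleAverage_comp_comm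
    (f := fun w : ℂ => w ^ (n + 1)) (c := 0) (R := r)
    ((continuous_id.pow _).continuousOn.circleIntegrable')
  rw [h2] at h3
  have h4 : ((Complex.conjCLE : ℂ →L[ℝ] ℂ) : ℂ → ℂ) ∘ (fun w : ℂ => w ^ (n + 1))
      = fun w : ℂ => (conj w) ^ (n + 1) := by
    funext w; simp
  rw [h4] at h3
  rw [h3]
  simp

lemma avg_step (hres : ∀ w : ℂ, ‖w‖ < 1 → w ∈ resolventSet ℂ T) {r : ℝ} (hr0 : 0 < r) (hr1 : r < 1)
    (n : ℕ) (v : H) :
    Real.circleAverage (fun w : ℂ => (conj w) ^ (n + 1) * F T e₀ γ v w) 0 r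
      = -(r : ℂ) ^ 2 * Real.circleAverage
          (fun w : ℂ => (conj w) ^ n * F T e₀ γ (resolvent T (0 : ℂ) v) w) 0 r := by
  have hcont : ∀ (u : H) (k : ℕ), CircleIntegrable (fun w : ℂ => (conj w) ^ k * F T e₀ γ u w) 0 r := by
    intro u k
    apply ContinuousOn.circleIntegrable hr0.le
    apply ContinuousOn.mul
    · exact (Complex.continuous_conj.pow k).continuousOn
    · intro w hw
      have : ‖w‖ = r := by simpa using hw
      exact (F_differentiableAt (hres w (by rw [this]; exact hr1)) u).continuousAt.continuousWithinAt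
  have h1 : Real.circleAverage (fun w : ℂ => (conj w) ^ (n + 1) * F T e₀ γ v w) 0 r
      = Real.circleAverage (fun w : ℂ => (F T e₀ γ v 0) • (conj w) ^ (n + 1)
          + (-(r : ℂ) ^ 2) • ((conj w) ^ n * F T e₀ γ (resolvent T (0 : ℂ) v) w)) 0 r := by
    apply Real.circleAverage_congr_sphere
    intro w hw
    have hw' : ‖w‖ = r := by
      have := hw
      rw [abs_of_pos hr0] at this
      simpa using this
    have hF := F_resolvent (e₀ := e₀) (γ := γ) (hres 0 (by simp))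
      (hres w (by rw [hw']; exact hr1)) v
    have hww : conj w * w = (r : ℂ) ^ 2 := by
      rw [Complex.conj_mul', hw']
    simp only [smul_eq_mul]
    rw [hF]
    linear_combination (-(conj w) ^ n * F T e₀ γ (resolvent T (0 : ℂ) v) w) * hww
  rw [h1, Real.circleAverage_fun_add, Real.circleAverage_fun_smul, Real.circleAverage_fun_smul,
    avg_conj_pow, smul_zero, zero_add, smul_eq_mul]
  · apply ContinuousOn.circleIntegrable hr0.le
    exact (continuous_const.mul (Complex.continuous_conj.pow _)).continuousOn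
  · exact (hcont _ _).const_fun_smul

lemma avg_iter (hres : ∀ w : ℂ, ‖w‖ < 1 → w ∈ resolventSet ℂ T) {r : ℝ} (hr0 : 0 < r) (hr1 : r < 1)
    (n : ℕ) (v : H) :
    ‖Real.circleAverage (fun w : ℂ => (conj w) ^ n * F T e₀ γ v w) 0 r‖
      = r ^ (2 * n) * ‖F T e₀ γ ((resolvent T (0 : ℂ) ^ n) v) 0‖ := by
  induction n generalizing v with
  | zero =>
    have h1 : DiffContOnCl ℂ (F T e₀ γ v) (Metric.ball 0 |r|) := by
      apply DifferentiableOn.diffContOnCl
      intro w hw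
      have : ‖w‖ ≤ r := by
        have h := Metric.closure_ball_subset_closedBall hw
        rw [abs_of_pos hr0] at h
        simpa using h
      exact (F_differentiableAt (hres w (lt_of_le_of_lt this hr1)) v).differentiableWithinAt
    have h2 := h1.circleAverage
    simp only [pow_zero, one_mul, mul_zero]
    rw [h2]
    simp
  | succ n ih =>
    rw [avg_step hres hr0 hr1, norm_mul, ih]
    have : (resolvent T (0 : ℂ) ^ (n + 1)) v = (resolvent T (0 : ℂ) ^ n) (resolvent T (0 : ℂ) v) := by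
      rw [pow_succ]; rfl
    rw [this, norm_neg, norm_pow, Complex.norm_real, Real.norm_of_nonneg hr0.le]
    ring

lemma coeff_bound (hiso : ∀ x, ‖S x‖ = ‖x‖) (he : ‖e₀‖ = 1) (h0 : ∀ x, ⟪e₀, S x⟫_ℂ = 0)
    (hr : ∀ x, ⟪e₀, x⟫_ℂ = 0 → ∃ y, S y = x)
    (hT : ∀ x, T (S x) = S (T x) + (γ * ⟪e₀, x⟫_ℂ) • e₀)
    (hres : ∀ w : ℂ, ‖w‖ < 1 → w ∈ resolventSet ℂ T) {r : ℝ} (hr0 : 0 < r) (hr1 : r < 1)
    (n : ℕ) (v : H) :
    r ^ n * ‖F T e₀ γ ((resolvent T (0 : ℂ) ^ n) v) 0‖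
      ≤ (1 + (G S v (F T e₀ γ e₀ 0)).re) / 2 := by
  have hd : ∀ w : ℂ, ‖w‖ < 1 → DifferentiableAt ℂ (fun w => G S v (F T e₀ γ e₀ w)) w := by
    intro w hw
    exact (G_differentiableAt hiso (norm_zeta hiso he h0 hT (hres w hw)) v).comp w
      (F_differentiableAt (hres w hw) e₀)
  have h1 : DiffContOnCl ℂ (fun w => G S v (F T e₀ γ e₀ w)) (Metric.ball 0 |r|) := by
    apply DifferentiableOn.diffContOnCl
    intro w hw
    have : ‖w‖ ≤ r := by
      have h := Metric.closure_ball_subset_closedBall hw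
      rw [abs_of_pos hr0] at h
      simpa using h
    exact (hd w (lt_of_le_of_lt this hr1)).differentiableWithinAt
  have hGc : ContinuousOn (fun w => G S v (F T e₀ γ e₀ w)) (Metric.sphere 0 r) := by
    intro w hw
    have : ‖w‖ = r := by simpa using hw
    exact (hd w (by rw [this]; exact hr1)).continuousAt.continuousWithinAt
  have h2 := h1.circleAverage
  have h3 := (Complex.reCLM).circleAverage_comp_comm
    (f := fun w => G S v (F T e₀ γ e₀ w)) (c := 0) (R := r) (hGc.circleIntegrable hr0.le)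
  rw [h2] at h3
  have h4 : Real.circleAverage (fun w => (G S v (F T e₀ γ e₀ w)).re) 0 r
      = (G S v (F T e₀ γ e₀ 0)).re := h3
  have hFc : ContinuousOn (fun w : ℂ => (conj w) ^ n * F T e₀ γ v w) (Metric.sphere 0 r) := by
    apply ContinuousOn.mul
    · exact (Complex.continuous_conj.pow n).continuousOn
    · intro w hw
      have : ‖w‖ = r := by simpa using hw
      exact (F_differentiableAt (hres w (by rw [this]; exact hr1)) v).continuousAt.continuousWithinAt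
  have h5 := norm_circleAverage_le' (fun w : ℂ => (conj w) ^ n * F T e₀ γ v w) r
  have h6 : Real.circleAverage (fun w => ‖(conj w) ^ n * F T e₀ γ v w‖) 0 r
      ≤ Real.circleAverage (fun w => (r ^ n / 2) • (1 + (G S v (F T e₀ γ e₀ w)).re)) 0 r := by
    apply Real.circleAverage_mono
    · exact hFc.norm.circleIntegrable hr0.le
    · apply ContinuousOn.circleIntegrable hr0.le
      exact ContinuousOn.const_smul
        (continuousOn_const.add (Complex.continuous_re.comp_continuousOn hGc)) (r ^ n / 2 : ℝ)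
    · intro w hw
      have hw' : ‖w‖ = r := by
        have := hw
        rw [abs_of_pos hr0] at this
        simpa using this
      have hb := F_bound hiso he h0 hr hT (hres w (by rw [hw']; exact hr1)) v
      rw [norm_mul, norm_pow, RCLike.norm_conj, hw', smul_eq_mul]
      have hsq : ‖F T e₀ γ v w‖ ≤ (1 + ‖F T e₀ γ v w‖ ^ 2) / 2 := by
        nlinarith [sq_nonneg (‖F T e₀ γ v w‖ - 1)]
      have hrn : 0 ≤ r ^ n := by positivity
      calc r ^ n * ‖F T e₀ γ v w‖ ≤ r ^ n * ((1 + (G S v (F T e₀ γ e₀ w)).re) / 2) := by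
            apply mul_le_mul_of_nonneg_left _ hrn
            linarith
        _ = _ := by ring
  rw [Real.circleAverage_fun_smul, Real.circleAverage_fun_add
    (by apply ContinuousOn.circleIntegrable hr0.le; exact continuousOn_const)
    (by apply ContinuousOn.circleIntegrable hr0.le
        exact Complex.continuous_re.comp_continuousOn hGc), h4,
    Real.circleAverage_const, smul_eq_mul] at h6
  rw [avg_iter hres hr0 hr1] at h5
  have h7 := h5.trans h6
  have h8 : r ^ (2 * n) = r ^ n * r ^ n := by rw [two_mul, pow_add]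
  rw [h8] at h7
  have hrn : 0 < r ^ n := by positivity
  have h9 : r ^ n * (r ^ n * ‖F T e₀ γ ((resolvent T (0 : ℂ) ^ n) v) 0‖)
      ≤ r ^ n * ((1 + (G S v (F T e₀ γ e₀ 0)).re) / 2) := by
    calc _ = r ^ n * r ^ n * ‖F T e₀ γ ((resolvent T (0 : ℂ) ^ n) v) 0‖ := by ring
      _ ≤ _ := h7
      _ = _ := by ring
  exact le_of_mul_le_mul_left h9 hrn

lemma coeff_bound' (hiso : ∀ x, ‖S x‖ = ‖x‖) (he : ‖e₀‖ = 1) (h0 : ∀ x, ⟪e₀, S x⟫_ℂ = 0)
    (hr : ∀ x, ⟪e₀, x⟫_ℂ = 0 → ∃ y, S y = x)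
    (hT : ∀ x, T (S x) = S (T x) + (γ * ⟪e₀, x⟫_ℂ) • e₀)
    (hres : ∀ w : ℂ, ‖w‖ < 1 → w ∈ resolventSet ℂ T) :
    ∃ C : ℝ, ∀ (n : ℕ) (v : H), ‖F T e₀ γ ((resolvent T (0 : ℂ) ^ n) v) 0‖ ≤ C * ‖v‖ := by
  have hζ := norm_zeta hiso he h0 hT (hres 0 (by simp))
  set ζ := F T e₀ γ e₀ 0 with hζdef
  set M := ‖N S ζ‖ with hM
  have hG : ∀ v, (G S v ζ).re ≤ 2 * M * ‖v‖ ^ 2 := by
    intro v
    have h1 : ‖N S ζ v‖ ≤ M * ‖v‖ := (N S ζ).le_opNorm v
    have h2 : ‖ζ • ContinuousLinearMap.adjoint S (N S ζ v)‖ ≤ M * ‖v‖ := by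
      rw [norm_smul]
      have h3 : ‖ContinuousLinearMap.adjoint S (N S ζ v)‖ ≤ ‖N S ζ v‖ := by
        calc ‖ContinuousLinearMap.adjoint S (N S ζ v)‖
            ≤ ‖ContinuousLinearMap.adjoint S‖ * ‖N S ζ v‖ := ContinuousLinearMap.le_opNorm _ _
          _ ≤ 1 * ‖N S ζ v‖ := mul_le_mul_of_nonneg_right (norm_adj_le hiso) (norm_nonneg _)
          _ = _ := one_mul _
      calc ‖ζ‖ * ‖ContinuousLinearMap.adjoint S (N S ζ v)‖ ≤ 1 * ‖N S ζ v‖ :=
            mul_le_mul hζ.le h3 (norm_nonneg _) zero_le_one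
        _ = ‖N S ζ v‖ := one_mul _
        _ ≤ _ := h1
    calc (G S v ζ).re ≤ ‖G S v ζ‖ := Complex.re_le_norm _
      _ ≤ ‖v‖ * ‖N S ζ v + ζ • ContinuousLinearMap.adjoint S (N S ζ v)‖ := norm_inner_le_norm _ _
      _ ≤ ‖v‖ * (M * ‖v‖ + M * ‖v‖) := by
          apply mul_le_mul_of_nonneg_left _ (norm_nonneg _)
          exact (norm_add_le _ _).trans (add_le_add h1 h2)
      _ = 2 * M * ‖v‖ ^ 2 := by ring
  have hlim : ∀ (n : ℕ) (v : H), ‖F T e₀ γ ((resolvent T (0 : ℂ) ^ n) v) 0‖ ≤ (1 + 2 * M * ‖v‖ ^ 2) / 2 := by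
    intro n v
    have htend : Filter.Tendsto (fun r : ℝ => r ^ n * ‖F T e₀ γ ((resolvent T (0 : ℂ) ^ n) v) 0‖)
        (nhdsWithin 1 (Set.Iio 1)) (nhds (1 ^ n * ‖F T e₀ γ ((resolvent T (0 : ℂ) ^ n) v) 0‖)) := by
      apply Filter.Tendsto.mono_left _ nhdsWithin_le_nhds
      exact ((continuous_pow n).mul continuous_const).tendsto 1
    rw [one_pow, one_mul] at htend
    apply le_of_tendsto htend
    have : Set.Ioo (0 : ℝ) 1 ∈ nhdsWithin (1 : ℝ) (Set.Iio 1) := Ioo_mem_nhdsLT (by norm_num)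
    filter_upwards [this] with r hr'
    refine (coeff_bound hiso he h0 hr hT hres hr'.1 hr'.2 n v).trans ?_
    have := hG v
    linarith
  refine ⟨(1 + 2 * M) / 2, fun n v => ?_⟩
  by_cases hv : v = 0
  · subst hv
    simp [F]
  · have hvn : 0 < ‖v‖ := norm_pos_iff.2 hv
    have h1 := hlim n (((‖v‖⁻¹ : ℝ) : ℂ) • v)
    have h2 : ‖((‖v‖⁻¹ : ℝ) : ℂ) • v‖ = 1 := by
      rw [norm_smul, Complex.norm_real, norm_inv, norm_norm, inv_mul_cancel₀ hvn.ne']
    rw [h2] at h1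
    have h3 : F T e₀ γ ((resolvent T (0 : ℂ) ^ n) (((‖v‖⁻¹ : ℝ) : ℂ) • v)) 0
        = ((‖v‖⁻¹ : ℝ) : ℂ) * F T e₀ γ ((resolvent T (0 : ℂ) ^ n) v) 0 := by
      unfold F
      rw [map_smul, map_smul, inner_smul_right]; ring
    rw [h3, norm_mul, Complex.norm_real, norm_inv, norm_norm, inv_mul_le_iff₀ hvn] at h1
    linarith

theorem abstract (hiso : ∀ x, ‖S x‖ = ‖x‖) (he : ‖e₀‖ = 1) (h0 : ∀ x, ⟪e₀, S x⟫_ℂ = 0)
    (hr : ∀ x, ⟪e₀, x⟫_ℂ = 0 → ∃ y, S y = x)
    (hT : ∀ x, T (S x) = S (T x) + (γ * ⟪e₀, x⟫_ℂ) • e₀) (hyp : Hypercyclic T) :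
    ∃ w ∈ spectrum ℂ T, ‖w‖ < 1 := by
  by_contra hcon
  push Not at hcon
  have hres : ∀ w : ℂ, ‖w‖ < 1 → w ∈ resolventSet ℂ T := by
    intro w hw
    by_contra h
    exact absurd (hcon w h) (not_le.2 hw)
  have hee : ⟪e₀, e₀⟫_ℂ = 1 := by rw [inner_self_eq_norm_sq_to_K, he]; simp
  have he0 : e₀ ≠ 0 := by
    intro h; rw [h, norm_zero] at he; norm_num at he
  obtain ⟨x, hx⟩ := hyp
  -- `T` is injective
  have hinj : ∀ y, T y = 0 → y = 0 := by
    intro y hy
    have := res_left (hres 0 (by simp)) y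
    rw [hy, zero_smul, sub_zero, map_zero] at this
    exact this.symm
  have hpow : ∀ (n : ℕ) y, (T ^ (n + 1)) y = T ((T ^ n) y) := by
    intro n y; rw [pow_succ']; rfl
  have hx0 : x ≠ 0 := by
    rintro rfl
    have h1 : e₀ ∈ closure (Set.range fun n : ℕ => (T ^ n) (0 : H)) := hx e₀
    have h2 : (Set.range fun n : ℕ => (T ^ n) (0 : H)) = {0} := by
      ext z
      simp
    rw [h2, closure_singleton] at h1
    exact he0 h1
  have hne : ∀ n, (T ^ n) x ≠ 0 := by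
    intro n
    induction n with
    | zero => simpa using hx0
    | succ n ih =>
      intro h
      rw [hpow] at h
      exact ih (hinj _ h)
  -- small orbit elements far out
  have hsmall : ∀ (k : ℕ) (ε : ℝ), 0 < ε → ∃ m, k ≤ m ∧ ‖(T ^ m) x‖ < ε := by
    intro k
    induction k with
    | zero =>
      intro ε hε
      obtain ⟨z, hz, n, hn⟩ := Metric.dense_iff.1 hx 0 ε hε
      refine ⟨n, Nat.zero_le _, ?_⟩
      have hn' : (T ^ n) x = z := hn
      rw [hn']
      simpa using hz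
    | succ k ih =>
      intro ε hε
      obtain ⟨m, hm, hm2⟩ := ih (min ε ‖(T ^ k) x‖) (lt_min hε (norm_pos_iff.2 (hne k)))
      refine ⟨m, ?_, lt_of_lt_of_le hm2 (min_le_left _ _)⟩
      rcases Nat.lt_or_ge k m with h | h
      · exact h
      · have : m = k := le_antisymm h hm
        subst this
        exact absurd (lt_of_lt_of_le hm2 (min_le_right _ _)) (lt_irrefl _)
  -- `e₀` is orthogonal to the orbit
  have horth : ∀ k, ⟪e₀, (T ^ k) x⟫_ℂ = 0 := by
    by_cases hγ : γ = 0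
    · subst hγ
      set c := ⟪e₀, T e₀⟫_ℂ with hc
      have hTy : ∀ y, ⟪e₀, T y⟫_ℂ = c * ⟪e₀, y⟫_ℂ := by
        intro y
        conv_lhs => rw [decomp hiso he h0 hr y]
        rw [map_add, map_smul, hT, zero_mul, zero_smul, add_zero, inner_add_right, h0,
          inner_smul_right, ← hc]
        ring
      have hc1 : 1 ≤ ‖c‖ := by
        by_contra h
        push Not at h
        have h1 := res_right (hres c h) e₀
        have h2 : ⟪e₀, e₀⟫_ℂ = 0 := by
          have h3 : ⟪e₀, c • resolvent T c e₀ - T (resolvent T c e₀)⟫_ℂ = ⟪e₀, e₀⟫_ℂ := by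
            rw [h1]
          rw [← h3, inner_sub_right, inner_smul_right, hTy]
          ring
        rw [hee] at h2
        exact one_ne_zero h2
      have hk : ∀ k, ⟪e₀, (T ^ k) x⟫_ℂ = c ^ k * ⟪e₀, x⟫_ℂ := by
        intro k
        induction k with
        | zero => simp
        | succ k ih => rw [hpow, hTy, ih]; ring
      have hx00 : ⟪e₀, x⟫_ℂ = 0 := by
        by_contra h
        have hpos : 0 < ‖⟪e₀, x⟫_ℂ‖ := norm_pos_iff.2 h
        obtain ⟨m, -, hm⟩ := hsmall 0 _ hpos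
        have h1 : ‖⟪e₀, (T ^ m) x⟫_ℂ‖ ≤ ‖(T ^ m) x‖ := by
          calc _ ≤ ‖e₀‖ * ‖(T ^ m) x‖ := norm_inner_le_norm _ _
            _ = _ := by rw [he, one_mul]
        rw [hk, norm_mul, norm_pow] at h1
        have h2 : 1 ≤ ‖c‖ ^ m := one_le_pow₀ hc1
        nlinarith
      intro k
      rw [hk, hx00, mul_zero]
    · obtain ⟨C, hC⟩ := coeff_bound' hiso he h0 hr hT hres
      have hback : ∀ (n : ℕ) (y : H), (resolvent T (0 : ℂ) ^ n) ((T ^ n) y) = (-1 : ℂ) ^ n • y := by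
        intro n
        induction n with
        | zero => intro y; simp
        | succ n ih =>
          intro y
          have h1 : (resolvent T (0 : ℂ) ^ (n + 1)) ((T ^ (n + 1)) y)
              = (resolvent T (0 : ℂ) ^ n) (resolvent T (0 : ℂ) (T ((T ^ n) y))) := by
            rw [pow_succ, pow_succ']; rfl
          have h2 : resolvent T (0 : ℂ) (T ((T ^ n) y)) = -((T ^ n) y) := by
            have := res_left (hres 0 (by simp)) ((T ^ n) y)
            rw [zero_smul, zero_sub, map_neg] at this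
            exact neg_eq_iff_eq_neg.1 this
          rw [h1, h2, map_neg, ih, pow_succ]
          simp
      intro k
      by_contra h
      have hpos : 0 < ‖γ‖ * ‖⟪e₀, (T ^ k) x⟫_ℂ‖ := by
        have := norm_pos_iff.2 h
        have := norm_pos_iff.2 hγ
        positivity
      have hCpos : 0 < |C| + 1 := by positivity
      obtain ⟨m, hm, hm2⟩ := hsmall (k + 1) (‖γ‖ * ‖⟪e₀, (T ^ k) x⟫_ℂ‖ / (|C| + 1))
        (div_pos hpos hCpos)
      obtain ⟨n, rfl⟩ := Nat.exists_eq_add_of_le hm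
      have h1 := hC n ((T ^ (k + 1 + n)) x)
      have h2 : F T e₀ γ ((resolvent T (0 : ℂ) ^ n) ((T ^ (k + 1 + n)) x)) 0
          = γ * ((-1 : ℂ) ^ (n + 1) * ⟪e₀, (T ^ k) x⟫_ℂ) := by
        unfold F
        have h3 : resolvent T (0 : ℂ) ((resolvent T (0 : ℂ) ^ n) ((T ^ (k + 1 + n)) x))
            = (resolvent T (0 : ℂ) ^ (n + 1)) ((T ^ (n + 1)) ((T ^ k) x)) := by
          have h4 : (T ^ (k + 1 + n)) x = (T ^ (n + 1)) ((T ^ k) x) := by
            rw [show k + 1 + n = (n + 1) + k by ring, pow_add]; rfl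
          rw [h4, pow_succ' (resolvent T (0 : ℂ)) n]; rfl
        rw [h3, hback, inner_smul_right]
      rw [h2, norm_mul, norm_mul, norm_pow, norm_neg, norm_one, one_pow, one_mul] at h1
      rw [lt_div_iff₀ hCpos] at hm2
      have h5 : C ≤ |C| + 1 := by linarith [le_abs_self C]
      have h6 : C * ‖(T ^ (k + 1 + n)) x‖ ≤ (|C| + 1) * ‖(T ^ (k + 1 + n)) x‖ :=
        mul_le_mul_of_nonneg_right h5 (norm_nonneg _)
      nlinarith
  -- contradiction with density
  have hcl : IsClosed {y : H | ⟪e₀, y⟫_ℂ = 0} :=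
    isClosed_eq (continuous_const.inner continuous_id) continuous_const
  have hsub : closure (Set.range fun n : ℕ => (T ^ n) x) ⊆ {y : H | ⟪e₀, y⟫_ℂ = 0} :=
    closure_minimal (by rintro _ ⟨n, rfl⟩; exact horth n) hcl
  have := hsub (hx e₀)
  have h' : ⟪e₀, e₀⟫_ℂ = 0 := this
  rw [hee] at h'
  exact one_ne_zero h'

end Abstract

/-! ### The Hardy space and Toeplitz operators -/

section Model

open MeasureTheory AddCircle
open scoped ENNReal

/-- The circle, parametrised by `t ↦ exp (2 π i t)`, `t ∈ ℝ / ℤ`, with normalised measure: the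
space `L²(𝕋)`. -/
abbrev L2 : Type := Lp ℂ 2 (haarAddCircle (T := (1 : ℝ)))

/-- The space `L^∞(𝕋)`. -/
abbrev Linf : Type := Lp ℂ ∞ (haarAddCircle (T := (1 : ℝ)))

lemma inner_fourier (n : ℤ) (f : L2) : ⟪(fourierLp 2 n : L2), f⟫_ℂ = fourierCoeff f n := by
  rw [← fourierBasis_repr, HilbertBasis.repr_apply_apply, coe_fourierBasis]

/-- The Hardy space `H²` as a subspace of `L²(𝕋)`: the Fourier coefficients with negative index
vanish. -/
def H2 : Submodule ℂ L2 where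
  carrier := {f | ∀ n : ℤ, n < 0 → fourierCoeff f n = 0}
  zero_mem' := by
    intro n _
    rw [← inner_fourier, inner_zero_right]
  add_mem' := by
    intro f g hf hg n hn
    rw [← inner_fourier, inner_add_right, inner_fourier, inner_fourier, hf n hn, hg n hn, add_zero]
  smul_mem' := by
    intro c f hf n hn
    rw [← inner_fourier, inner_smul_right, inner_fourier, hf n hn, mul_zero]

lemma mem_H2 {f : L2} : f ∈ H2 ↔ ∀ n : ℤ, n < 0 → fourierCoeff f n = 0 := Iff.rfl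

lemma isClosed_H2 : IsClosed (H2 : Set L2) := by
  have : (H2 : Set L2) = ⋂ n : ℤ, ⋂ _ : n < 0, {f : L2 | ⟪(fourierLp 2 n : L2), f⟫_ℂ = 0} := by
    ext f
    simp only [SetLike.mem_coe, mem_H2, Set.mem_iInter, Set.mem_ofPred_eq, inner_fourier]
  rw [this]
  exact isClosed_iInter fun n => isClosed_iInter fun _ =>
    isClosed_eq (continuous_const.inner continuous_id) continuous_const

instance : CompleteSpace H2 := isClosed_H2.completeSpace_coe

/-- Multiplication by `ψ ∈ L^∞(𝕋)` on `L²(𝕋)`. -/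
noncomputable def M (ψ : Linf) : L2 →L[ℂ] L2 :=
  (ContinuousLinearMap.mul ℂ ℂ).holderL (haarAddCircle (T := (1 : ℝ))) ∞ 2 2 ψ

/-- The Toeplitz operator `T_ψ f = P₊ (ψ f)` on `H²`. -/
noncomputable def toeplitz (ψ : Linf) : H2 →L[ℂ] H2 :=
  H2.orthogonalProjectionOnto ∘L M ψ ∘L H2.subtypeL

lemma coeFn_M (ψ : Linf) (f : L2) :
    (M ψ f : AddCircle (1 : ℝ) → ℂ) =ᵐ[haarAddCircle] fun t => ψ t * f t := by
  exact (ContinuousLinearMap.mul ℂ ℂ).coeFn_holder ψ f

lemma M_add (ψ χ : Linf) : M (ψ + χ) = M ψ + M χ := map_add _ _ _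

lemma M_smul (c : ℂ) (ψ : Linf) : M (c • ψ) = c • M ψ := map_smul _ _ _

lemma M_comm (ψ χ : Linf) (f : L2) : M ψ (M χ f) = M χ (M ψ f) := by
  apply Lp.ext
  filter_upwards [coeFn_M ψ (M χ f), coeFn_M χ f, coeFn_M χ (M ψ f), coeFn_M ψ f] with t h1 h2 h3 h4
  rw [h1, h2, h3, h4]; ring

/-- The function `z ^ k` in `L^∞`. -/
noncomputable abbrev Z (k : ℤ) : Linf := fourierLp ∞ k

lemma M_Z_Z (j k : ℤ) (hjk : j + k = 0) (f : L2) : M (Z j) (M (Z k) f) = f := by
  apply Lp.ext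
  filter_upwards [coeFn_M (Z j) (M (Z k) f), coeFn_M (Z k) f, coeFn_fourierLp (T := (1 : ℝ)) ∞ j,
    coeFn_fourierLp (T := (1 : ℝ)) ∞ k] with t h1 h2 h3 h4
  rw [h1, h2, h3, h4, ← mul_assoc, ← fourier_add, hjk, fourier_zero, one_mul]

lemma M_Z_fourier (k n : ℤ) : M (Z k) (fourierLp 2 n) = fourierLp 2 (k + n) := by
  apply Lp.ext
  filter_upwards [coeFn_M (Z k) (fourierLp 2 n), coeFn_fourierLp (T := (1 : ℝ)) 2 n,
    coeFn_fourierLp (T := (1 : ℝ)) 2 (k + n), coeFn_fourierLp (T := (1 : ℝ)) ∞ k] with t h1 h2 h3 h4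
  rw [h1, h2, h3, h4, fourier_add]

lemma coeff_M_Z (k n : ℤ) (f : L2) : fourierCoeff (M (Z k) f) n = fourierCoeff f (n - k) := by
  unfold fourierCoeff
  apply integral_congr_ae
  filter_upwards [coeFn_M (Z k) f, coeFn_fourierLp (T := (1 : ℝ)) ∞ k] with t h1 h2
  rw [h1, h2, smul_eq_mul, smul_eq_mul, ← mul_assoc, ← fourier_add]
  congr 3
  ring

lemma coeff_M_fourier (ψ : Linf) (k n : ℤ) :
    fourierCoeff (M ψ (fourierLp 2 k)) n = fourierCoeff ψ (n - k) := by
  unfold fourierCoeff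
  apply integral_congr_ae
  filter_upwards [coeFn_M ψ (fourierLp 2 k), coeFn_fourierLp (T := (1 : ℝ)) 2 k] with t h1 h2
  rw [h1, h2, smul_eq_mul, smul_eq_mul, mul_comm (ψ t), ← mul_assoc, ← fourier_add]
  congr 3
  ring

lemma coeff_fourier (k n : ℤ) : fourierCoeff (fourierLp 2 k : L2) n = if n = k then 1 else 0 := by
  rw [← inner_fourier]
  exact orthonormal_iff_ite.1 orthonormal_fourier n k

lemma norm_M_Z (k : ℤ) (f : L2) : ‖M (Z k) f‖ = ‖f‖ := by
  rw [Lp.norm_def, Lp.norm_def]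
  congr 1
  apply eLpNorm_congr_norm_ae
  filter_upwards [coeFn_M (Z k) f, coeFn_fourierLp (T := (1 : ℝ)) ∞ k] with t h1 h2
  rw [h1, h2, norm_mul]
  have : ‖fourier k t‖ = 1 := by
    rw [fourier_apply]; exact Circle.norm_coe _
  rw [this, one_mul]

/-- `H^∞ · H² ⊆ H²`. -/
lemma M_mem {φ : Linf} (hφ : ∀ n : ℤ, n < 0 → fourierCoeff φ n = 0) {f : L2} (hf : f ∈ H2) :
    M φ f ∈ H2 := by
  intro n hn
  have h1 := hasSum_fourier_series_L2 f
  have h2 := ((innerSL ℂ (fourierLp 2 n : L2)).comp (M φ)).hasSum h1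
  have h3 : ∀ k : ℤ, ((innerSL ℂ (fourierLp 2 n : L2)).comp (M φ))
      (fourierCoeff f k • (fourierLp 2 k : L2)) = 0 := by
    intro k
    rw [map_smul]
    by_cases hk : k < 0
    · rw [hf k hk, zero_smul]
    · have : ((innerSL ℂ (fourierLp 2 n : L2)).comp (M φ)) (fourierLp 2 k : L2)
          = fourierCoeff (M φ (fourierLp 2 k)) n := inner_fourier n _
      rw [this, coeff_M_fourier, hφ (n - k) (by omega), smul_zero]
  simp only [h3] at h2
  have h4 := h2.unique hasSum_zero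
  have h5 : ((innerSL ℂ (fourierLp 2 n : L2)).comp (M φ)) f = fourierCoeff (M φ f) n :=
    inner_fourier n _
  rw [← h5, h4]

lemma fourier_mem {k : ℤ} (hk : 0 ≤ k) : (fourierLp 2 k : L2) ∈ H2 := by
  intro n hn
  rw [coeff_fourier, if_neg (by omega)]

/-- The constant function `1` in `H²`. -/
noncomputable def one : H2 := ⟨fourierLp 2 0, fourier_mem le_rfl⟩

lemma inner_one (f : H2) : ⟪one, f⟫_ℂ = fourierCoeff (f : L2) 0 := by
  rw [← inner_fourier]; rfl

lemma M_Z_one_mem {f : L2} (hf : f ∈ H2) : M (Z 1) f ∈ H2 := by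
  intro n hn
  rw [coeff_M_Z]
  exact hf _ (by omega)

/-- The shift on `H²`. -/
noncomputable def shift : H2 →L[ℂ] H2 :=
  (M (Z 1) ∘L H2.subtypeL).codRestrict H2 (fun f => M_Z_one_mem f.2)

lemma shift_coe (f : H2) : (shift f : L2) = M (Z 1) f := rfl

/-- The backward shift of `f ∈ H²` as an element of `L²`. -/
noncomputable def back (f : L2) : L2 := M (Z (-1)) f - fourierCoeff f 0 • fourierLp 2 (-1)

lemma back_mem {f : L2} (hf : f ∈ H2) : back f ∈ H2 := by
  intro n hn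
  unfold back
  rw [← inner_fourier, inner_sub_right, inner_smul_right, inner_fourier, inner_fourier, coeff_M_Z,
    coeff_fourier]
  by_cases h : n = -1
  · subst h; simp
  · rw [if_neg h, hf _ (by omega)]; ring

lemma proj_eq {u v : L2} (hv : v ∈ H2) (h : ∀ g ∈ H2, ⟪u - v, g⟫_ℂ = 0) :
    (H2.orthogonalProjectionOnto u : L2) = v := by
  have := Submodule.eq_starProjection_of_mem_of_inner_eq_zero (K := H2) (u := u) (v := v) hv h
  rw [← this]
  rfl

lemma toeplitz_eq (γ : ℂ) {φ : Linf} (hφ : ∀ n : ℤ, n < 0 → fourierCoeff φ n = 0) (f : H2) :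
    (toeplitz (γ • Z (-1) + φ) f : L2) = γ • back f + M φ f := by
  apply proj_eq
  · exact H2.add_mem (H2.smul_mem _ (back_mem f.2)) (M_mem hφ f.2)
  · intro g hg
    have h1 : M (γ • Z (-1) + φ) (f : L2) - (γ • back f + M φ f)
        = (γ * fourierCoeff (f : L2) 0) • (fourierLp 2 (-1) : L2) := by
      have : M (γ • Z (-1) + φ) (f : L2) = γ • M (Z (-1)) f + M φ f := by
        rw [M_add, M_smul]; rfl
      rw [this]
      unfold back
      rw [smul_sub, smul_smul]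
      abel
    show ⟪M (γ • Z (-1) + φ) (f : L2) - (γ • back f + M φ f), g⟫_ℂ = 0
    rw [h1, inner_smul_left, inner_fourier, hg (-1) (by norm_num), mul_zero]

theorem main (γ : ℂ) (φ : Linf) (hφ : ∀ n : ℤ, n < 0 → fourierCoeff φ n = 0)
    (hyp : Hypercyclic (toeplitz (γ • Z (-1) + φ))) :
    ∃ w ∈ spectrum ℂ (toeplitz (γ • Z (-1) + φ)), ‖w‖ < 1 := by
  have hshift0 : ∀ f : H2, ⟪one, shift f⟫_ℂ = 0 := by
    intro f
    rw [inner_one, shift_coe, coeff_M_Z]
    exact f.2 _ (by norm_num)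
  refine abstract (S := shift) (e₀ := one) (γ := γ) ?_ ?_ hshift0 ?_ ?_ hyp
  · intro f
    exact norm_M_Z 1 f
  · exact orthonormal_fourier.1 0
  · intro f hf
    rw [inner_one] at hf
    refine ⟨⟨back f, back_mem f.2⟩, ?_⟩
    apply Subtype.ext
    show M (Z 1) (back f) = f
    unfold back
    rw [hf, zero_smul, sub_zero]
    exact M_Z_Z 1 (-1) (by norm_num) _
  · intro f
    apply Subtype.ext
    have hf0 : fourierCoeff (M (Z 1) (f : L2)) 0 = 0 := by
      rw [coeff_M_Z]; exact f.2 _ (by norm_num)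
    have h1 : (toeplitz (γ • Z (-1) + φ) (shift f) : L2) = γ • (f : L2) + M φ (M (Z 1) f) := by
      rw [toeplitz_eq γ hφ, shift_coe]
      unfold back
      rw [hf0, zero_smul, sub_zero, M_Z_Z (-1) 1 (by norm_num)]
    have h2 : (shift (toeplitz (γ • Z (-1) + φ) f) : L2)
        = γ • (f : L2) - (γ * fourierCoeff (f : L2) 0) • (fourierLp 2 0 : L2)
          + M (Z 1) (M φ f) := by
      rw [shift_coe, toeplitz_eq γ hφ, map_add, map_smul]
      unfold back
      rw [map_sub, map_smul, M_Z_Z 1 (-1) (by norm_num), M_Z_fourier, smul_sub, smul_smul]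
      norm_num
    have h3 : ((shift (toeplitz (γ • Z (-1) + φ) f) + (γ * ⟪one, f⟫_ℂ) • one : H2) : L2)
        = (shift (toeplitz (γ • Z (-1) + φ) f) : L2)
          + (γ * fourierCoeff (f : L2) 0) • (fourierLp 2 0 : L2) := by
      rw [inner_one]; rfl
    show (toeplitz (γ • Z (-1) + φ) (shift f) : L2)
      = ((shift (toeplitz (γ • Z (-1) + φ) f) + (γ * ⟪one, f⟫_ℂ) • one : H2) : L2)
    rw [h3, h1, h2, M_comm (Z 1) φ]
    abel

lemma coeff_toeplitz (ψ : Linf) (f : H2) {n : ℤ} (hn : 0 ≤ n) :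
    fourierCoeff (toeplitz ψ f : L2) n = fourierCoeff (M ψ (f : L2)) n := by
  have h1 : ⟪(⟨fourierLp 2 n, fourier_mem hn⟩ : H2), H2.orthogonalProjectionOnto (M ψ (f : L2))⟫_ℂ
      = ⟪(fourierLp 2 n : L2), M ψ (f : L2)⟫_ℂ :=
    Submodule.inner_orthogonalProjectionOnto_eq_of_mem_left _ _
  rw [inner_fourier] at h1
  rw [← h1, ← inner_fourier]
  rfl

lemma H2_ext {f g : H2} (h : ∀ n : ℤ, 0 ≤ n → fourierCoeff (f : L2) n = fourierCoeff (g : L2) n) :
    f = g := by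
  apply Subtype.ext
  apply (fourierBasis (T := (1 : ℝ))).repr.injective
  apply lp.ext
  funext n
  rw [fourierBasis_repr, fourierBasis_repr]
  by_cases hn : 0 ≤ n
  · exact h n hn
  · rw [f.2 n (by omega), g.2 n (by omega)]

/-! ### The statement -/

/-- The space `L²(𝕋)`; the circle is `ℝ / ℤ` with its normalised measure, the class of `t`
corresponding to the point `exp (2 π i t)`. -/
def LTwo : Type := Lp ℂ 2 (haarAddCircle (T := (1 : ℝ)))

noncomputable instance : NormedAddCommGroup LTwo := (inferInstance : NormedAddCommGroup L2)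

noncomputable instance : InnerProductSpace ℂ LTwo := (inferInstance : InnerProductSpace ℂ L2)

/-- (A representative of) an element of `L²(𝕋)` as a function. -/
noncomputable def LTwo.fn (f : LTwo) : AddCircle (1 : ℝ) → ℂ := (show L2 from f)

/-- The Hardy space `H²`, a closed subspace of `L²(𝕋)`: the functions whose Fourier coefficients
with negative index vanish. -/
def HardySub : Submodule ℂ LTwo where
  carrier := {f | ∀ n : ℤ, n < 0 → fourierCoeff f.fn n = 0}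
  zero_mem' := H2.zero_mem
  add_mem' := H2.add_mem
  smul_mem' := fun c _ h => H2.smul_mem c h

/-- The Hardy space `H²` as a type. -/
def Hardy : Type := HardySub

noncomputable instance : NormedAddCommGroup Hardy := (inferInstance : NormedAddCommGroup HardySub)

noncomputable instance : InnerProductSpace ℂ Hardy := (inferInstance : InnerProductSpace ℂ HardySub)

/-- (A representative of) an element of the Hardy space as a function on the circle. -/
noncomputable def Hardy.fn (f : Hardy) : AddCircle (1 : ℝ) → ℂ := f.1.fn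

/-- `T` is the Toeplitz operator `T_ψ f = P₊ (ψ f)` on `H²`: for `n ≥ 0` the `n`-th Fourier
coefficient of `T f` is that of `ψ f`. -/
def IsToeplitz (ψ : AddCircle (1 : ℝ) → ℂ) (T : Hardy →L[ℂ] Hardy) : Prop :=
  ∀ (f : Hardy) (n : ℤ), 0 ≤ n →
    fourierCoeff (T f).fn n = fourierCoeff (fun t => ψ t * f.fn t) n

/-- `φ ∈ H^∞` (as a boundary function): `φ` is essentially bounded on the circle and its Fourier
coefficients with negative index vanish. -/
def IsHInf (φ : AddCircle (1 : ℝ) → ℂ) : Prop :=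
  MemLp φ ∞ haarAddCircle ∧ ∀ n : ℤ, n < 0 → fourierCoeff φ n = 0

/-- The symbol `Φ = γ / z + φ` on the circle. -/
noncomputable def symbol (γ : ℂ) (φ : AddCircle (1 : ℝ) → ℂ) : AddCircle (1 : ℝ) → ℂ :=
  fun t => γ / fourier 1 t + φ t

/-- **Main theorem.** Let `γ ∈ ℂ` and `φ ∈ H^∞`. There is exactly one bounded operator `T` on `H²`
that is the Toeplitz operator with symbol `Φ = γ / z + φ`, and if it is hypercyclic, then its
spectrum contains a point of the open unit disc. -/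
theorem result (γ : ℂ) (φ : AddCircle (1 : ℝ) → ℂ) (hφ : IsHInf φ) :
    ∃ T : Hardy →L[ℂ] Hardy, IsToeplitz (symbol γ φ) T ∧
      (∀ T' : Hardy →L[ℂ] Hardy, IsToeplitz (symbol γ φ) T' → T' = T) ∧
      (Hypercyclic T → ∃ w ∈ spectrum ℂ T, ‖w‖ < 1) := by
  obtain ⟨hmem, hneg⟩ := hφ
  set φ' : Linf := hmem.toLp φ with hφ'
  have hae : (φ' : AddCircle (1 : ℝ) → ℂ) =ᵐ[haarAddCircle] φ := MemLp.coeFn_toLp hmem
  have hneg' : ∀ n : ℤ, n < 0 → fourierCoeff φ' n = 0 := by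
    intro n hn
    rw [fourierCoeff_congr_ae hae]; exact hneg n hn
  have hex : IsToeplitz (symbol γ φ) (toeplitz (γ • Z (-1) + φ') : H2 →L[ℂ] H2) := by
    intro f n hn
    have h0 : fourierCoeff (toeplitz (γ • Z (-1) + φ') f : L2) n
        = fourierCoeff (M (γ • Z (-1) + φ') ((show H2 from f) : L2)) n := coeff_toeplitz _ _ hn
    refine h0.trans ?_
    refine congrFun (fourierCoeff_congr_ae ?_) n
    filter_upwards [hae, Lp.coeFn_add (γ • Z (-1)) φ', Lp.coeFn_smul γ (Z (-1)),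
      coeFn_fourierLp (T := (1 : ℝ)) ∞ (-1), coeFn_M (γ • Z (-1) + φ') ((show H2 from f) : L2)]
      with t h1 h2 h3 h4 h6
    have h5 : (fourier (-1) t : ℂ) = (fourier 1 t)⁻¹ := by
      have : (fourier (-1) t : ℂ) * fourier 1 t = 1 := by
        rw [← fourier_add]; simp
      exact eq_inv_of_mul_eq_one_left this
    rw [h6, h2, Pi.add_apply, h1, h3, Pi.smul_apply, h4, h5, smul_eq_mul]
    rfl
  refine ⟨(toeplitz (γ • Z (-1) + φ') : H2 →L[ℂ] H2), hex, ?_, fun h => main γ φ' hneg' h⟩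
  intro T' hT'
  apply ContinuousLinearMap.ext
  intro f
  apply H2_ext
  intro n hn
  exact (hT' f n hn).trans (hex f n hn).symm

end Model

end Pool.Agent.Results.MP_895317_an.SpectrumMeetsDisc
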